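import Pool.Agent.V5helper46.SQ.Arith

/-!
# The number `α = a / b ^ 2 + ∑_j ± 1 / b ^ (2 ^ (j + 2))`
-/

set_option autoImplicit false

namespace Pool.Agent.V5helper46.SQ

open Filter Topology

namespace Dat

variable (D : Dat)

/-- the terms of the series -/
noncomputable def term (j : ℕ) : ℝ := (D.sg j : ℝ) / (D.q (j + 1) : ℝ)

/-- the limit of `p_j / q_j` -/
noncomputable def alpha : ℝ := (D.a : ℝ) / (D.b : ℝ) ^ 2 + ∑' j : ℕ, D.term j

lemma q_lower (j i : ℕ) : D.q j * 2 ^ i ≤ D.q (j + i) := by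
  induction i with
  | zero => simp
  | succ i ih =>
    have h4 := D.four_le_q (j + i)
    have : j + (i + 1) = (j + i) + 1 := by ring
    rw [this, q_succ, pow_succ]
    nlinarith

lemma abs_term (j : ℕ) : |D.term j| = 1 / (D.q (j + 1) : ℝ) := by
  unfold term
  have hq : (0 : ℝ) < D.q (j + 1) := by exact_mod_cast D.q_pos (j + 1)
  rw [abs_div, abs_of_pos hq]
  congr 1
  have h := D.sg_abs j
  have h2 : ((|D.sg j| : ℤ) : ℝ) = 1 := by rw [h]; norm_num
  rwa [Int.cast_abs] at h2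

lemma term_le (j i : ℕ) : |D.term (j + i)| ≤ 1 / (D.q (j + 1) : ℝ) * (1 / 2) ^ i := by
  rw [abs_term]
  have h := D.q_lower (j + 1) i
  have hq : (0 : ℝ) < D.q (j + 1) := by exact_mod_cast D.q_pos (j + 1)
  have h2 : (D.q (j + 1) : ℝ) * 2 ^ i ≤ D.q (j + 1 + i) := by exact_mod_cast h
  have h3 : j + i + 1 = j + 1 + i := by ring
  rw [h3, one_div_pow, one_div_mul_one_div]
  exact one_div_le_one_div_of_le (by positivity) h2

lemma summable_abs (j : ℕ) : Summable fun i : ℕ => |D.term (j + i)| := by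
  refine Summable.of_nonneg_of_le (fun _ => abs_nonneg _) (D.term_le j) ?_
  exact (summable_geometric_of_lt_one (by norm_num) (by norm_num)).mul_left _

lemma summable_term : Summable D.term := by
  have h := D.summable_abs 0
  simp only [zero_add] at h
  exact h.of_abs

lemma partial_sum (j : ℕ) :
    (D.a : ℝ) / (D.b : ℝ) ^ 2 + ∑ i ∈ Finset.range j, D.term i = (D.p j : ℝ) / (D.q j : ℝ) := by
  induction j with
  | zero =>
    have hq : D.q 0 = D.b ^ 2 := by unfold q; norm_num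
    have hp : D.p 0 = D.a := rfl
    rw [hq, hp]
    push_cast
    simp
  | succ j ih =>
    rw [Finset.sum_range_succ, ← add_assoc, ih]
    unfold term
    rw [q_succ, p_succ]
    push_cast
    have hq : (D.q j : ℝ) ≠ 0 := by exact_mod_cast (D.q_pos j).ne'
    field_simp

lemma tail (j : ℕ) : |D.alpha - (D.p j : ℝ) / (D.q j : ℝ)| ≤ 2 / (D.q (j + 1) : ℝ) := by
  rw [← D.partial_sum j]
  unfold alpha
  rw [← D.summable_term.sum_add_tsum_nat_add j]
  have e1 : (D.a : ℝ) / (D.b : ℝ) ^ 2 + (∑ i ∈ Finset.range j, D.term i + ∑' i, D.term (i + j)) -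
    ((D.a : ℝ) / (D.b : ℝ) ^ 2 + ∑ i ∈ Finset.range j, D.term i) = ∑' i, D.term (i + j) := by ring
  rw [e1]
  have hs : Summable fun i : ℕ => |D.term (i + j)| := by
    simpa only [add_comm] using D.summable_abs j
  have h1 : |∑' i, D.term (i + j)| ≤ ∑' i, |D.term (i + j)| := by
    have := norm_tsum_le_tsum_norm (f := fun i => D.term (i + j)) (by simpa using hs)
    simpa using this
  refine h1.trans ?_
  have hg : Summable fun i : ℕ => 1 / (D.q (j + 1) : ℝ) * (1 / 2) ^ i :=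
    (summable_geometric_of_lt_one (by norm_num) (by norm_num)).mul_left _
  have h2 := hs.tsum_le_tsum (fun i => by rw [add_comm i j]; exact D.term_le j i) hg
  refine h2.trans (le_of_eq ?_)
  rw [tsum_mul_left, tsum_geometric_of_lt_one (by norm_num) (by norm_num)]
  norm_num
  ring

lemma tendsto_q : Tendsto (fun j : ℕ => (D.q j : ℝ)) atTop atTop := by
  refine tendsto_atTop_mono (f := fun j : ℕ => (2 : ℝ) ^ j) ?_
    (tendsto_pow_atTop_atTop_of_one_lt (by norm_num))
  intro j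
  have h := D.q_lower 0 j
  rw [zero_add] at h
  have h4 := D.four_le_q 0
  have h5 : (2 : ℤ) ^ j ≤ D.q j := by
    have : (0 : ℤ) < 2 ^ j := by positivity
    nlinarith
  exact_mod_cast h5

lemma tendsto_alpha : Tendsto (fun j : ℕ => (D.p j : ℝ) / (D.q j : ℝ)) atTop (𝓝 D.alpha) := by
  rw [tendsto_iff_dist_tendsto_zero]
  have h1 : Tendsto (fun j : ℕ => 2 / (D.q (j + 1) : ℝ)) atTop (𝓝 0) :=
    Tendsto.div_atTop tendsto_const_nhds (D.tendsto_q.comp (tendsto_add_atTop_nat 1))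
  refine squeeze_zero (fun _ => dist_nonneg) (fun j => ?_) h1
  rw [dist_comm, Real.dist_eq]
  exact D.tail j

/-- `α` is badly approximable -/
theorem bad (x y : ℤ) (hx : 0 < x) :
    1 / ((D.K : ℝ) * (x : ℝ) ^ 2) ≤ |D.alpha - (y : ℝ) / (x : ℝ)| := by
  have hxR : (0 : ℝ) < x := by exact_mod_cast hx
  have hK : (0 : ℝ) < D.K := by have := D.K_ge; exact_mod_cast (by linarith : 0 < D.K)
  have hlim : Tendsto (fun j : ℕ => |(D.p j : ℝ) / (D.q j : ℝ) - (y : ℝ) / (x : ℝ)|) atTop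
      (𝓝 |D.alpha - (y : ℝ) / (x : ℝ)|) := (D.tendsto_alpha.sub_const _).abs
  refine ge_of_tendsto hlim ?_
  have hev : ∀ᶠ j : ℕ in atTop, (x : ℝ) < D.q j := D.tendsto_q.eventually_gt_atTop _
  filter_upwards [hev] with j hj
  have hj' : x < D.q j := by exact_mod_cast hj
  have h := D.key' j x y hx.ne' (by rwa [abs_of_pos hx])
  rw [abs_of_pos hx] at h
  have hR : (D.q j : ℝ) ≤ D.K * (x * |(x : ℝ) * D.p j - y * D.q j|) := by exact_mod_cast h
  have hq : (0 : ℝ) < D.q j := by exact_mod_cast D.q_pos j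
  have e : (D.p j : ℝ) / (D.q j : ℝ) - (y : ℝ) / (x : ℝ) =
      ((x : ℝ) * D.p j - y * D.q j) / (D.q j * x) := by
    field_simp
  rw [e, abs_div, abs_of_pos (by positivity : (0 : ℝ) < D.q j * x),
    div_le_div_iff₀ (by positivity) (by positivity)]
  nlinarith

lemma irrational : Irrational D.alpha := by
  rintro ⟨r, hr⟩
  have h := D.bad r.den r.num (by exact_mod_cast r.pos)
  have h2 : D.alpha - (r.num : ℝ) / (((r.den : ℕ) : ℤ) : ℝ) = 0 := by
    rw [← hr]
    have : (r : ℝ) = (r.num : ℝ) / (((r.den : ℕ) : ℤ) : ℝ) := by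
      push_cast
      exact_mod_cast (Rat.num_div_den r).symm
    rw [← this, sub_self]
  rw [h2, abs_zero] at h
  have hK : (0 : ℝ) < D.K := by have := D.K_ge; exact_mod_cast (by linarith : 0 < D.K)
  have hd : (0 : ℝ) < (((r.den : ℕ) : ℤ) : ℝ) := by exact_mod_cast r.pos
  have : 0 < 1 / ((D.K : ℝ) * (((r.den : ℕ) : ℤ) : ℝ) ^ 2) := by positivity
  linarith

end Dat

/-- different signs give different numbers -/
lemma alpha_inj (D D' : Dat) (hb : D.b = D'.b) (ha : D.a = D'.a) (h : D.alpha = D'.alpha) :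
    D.e = D'.e := by
  by_contra hne
  have hex : ∃ j, D.e j ≠ D'.e j := by
    by_contra h2
    push Not at h2
    exact hne (funext h2)
  classical
  set i := Nat.find hex with hi
  have hi1 : D.e i ≠ D'.e i := Nat.find_spec hex
  have hi2 : ∀ j, j < i → D.e j = D'.e j := by
    intro j hj
    have := Nat.find_min hex hj
    push Not at this
    exact this
  have hq : ∀ j, D.q j = D'.q j := by intro j; unfold Dat.q; rw [hb]
  have hp : ∀ j, j ≤ i → D.p j = D'.p j := by
    intro j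
    induction j with
    | zero => intro _; exact ha
    | succ j ih =>
      intro hj
      rw [Dat.p_succ, Dat.p_succ, ih (by omega), hq]
      unfold Dat.sg
      rw [hi2 j (by omega)]
  have hd : |D.p (i + 1) - D'.p (i + 1)| = 2 := by
    rw [Dat.p_succ, Dat.p_succ, hp i le_rfl, hq]
    unfold Dat.sg
    revert hi1
    cases D.e i <;> cases D'.e i <;> simp
  have h1 := D.tail (i + 1)
  have h2 := D'.tail (i + 1)
  rw [← hq (i + 1), ← hq (i + 1 + 1), ← h] at h2
  have hqp : (0 : ℝ) < D.q (i + 1) := by exact_mod_cast D.q_pos (i + 1)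
  have h4 : (4 : ℝ) ≤ D.q (i + 1) := by exact_mod_cast D.four_le_q (i + 1)
  have h3 : |(D.p (i + 1) : ℝ) / D.q (i + 1) - (D'.p (i + 1) : ℝ) / D.q (i + 1)| ≤
      4 / (D.q (i + 1 + 1) : ℝ) := by
    have e1 : (D.p (i + 1) : ℝ) / D.q (i + 1) - (D'.p (i + 1) : ℝ) / D.q (i + 1) =
      (D.alpha - (D'.p (i + 1) : ℝ) / D.q (i + 1)) - (D.alpha - (D.p (i + 1) : ℝ) / D.q (i + 1)) := by
      ring
    rw [e1]
    refine (abs_sub _ _).trans ?_
    have : (4 : ℝ) / (D.q (i + 1 + 1) : ℝ) = 2 / (D.q (i + 1 + 1) : ℝ) + 2 / (D.q (i + 1 + 1) : ℝ) := by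
      ring
    rw [this]
    exact add_le_add h2 h1
  rw [← sub_div, abs_div, abs_of_pos hqp] at h3
  have h5 : |(D.p (i + 1) : ℝ) - (D'.p (i + 1) : ℝ)| = 2 := by exact_mod_cast hd
  have h6 : (D.q (i + 1 + 1) : ℝ) = (D.q (i + 1) : ℝ) ^ 2 := by
    rw [Dat.q_succ]; push_cast; ring
  rw [h5, h6, div_le_div_iff₀ hqp (by positivity)] at h3
  nlinarith

end Pool.Agent.V5helper46.SQ
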