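import Mathlib

/-!
# Badly approximable numbers with convergents whose denominators are squares

`q_0 = b ^ 2`, `p_0 = a`, `q_{j+1} = q_j ^ 2`, `p_{j+1} = p_j q_j + e_j` with signs `e_j`. The limit
of `p_j / q_j` is badly approximable.
-/

set_option autoImplicit false

namespace Pool.Agent.V5helper46.SQ

/-- the integer inequality behind the induction step -/
lemma step_ineq (K Q s τ l : ℤ) (hK : 24 ≤ K) (hQ : 4 ≤ Q) (hs : 1 ≤ s) (hτ : 1 ≤ τ)
    (hsl : s ≤ l) (hl : Q * τ - s ≤ l)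
    (hcon : K * s ^ 2 * l < (Q ^ 2 + 2) * (s + 1))
    (h1 : s ≤ τ → (Q + 2) * (s + 1) ≤ K * s ^ 2 * τ)
    (h2 : τ < s → (Q + 2) * (τ + 1) ≤ K * τ ^ 2 * s) : False := by
  have hK0 : 0 < K := by linarith
  have hQ0 : 0 < Q := by linarith
  rcases le_or_gt s τ with hst | hst
  · have h3 := h1 hst
    -- l ≥ (Q - 1) τ
    have h4 : (Q - 1) * τ ≤ l := by nlinarith
    have h5 : (Q - 1) * (K * s ^ 2 * τ) ≤ K * s ^ 2 * l := by
      have : K * s ^ 2 * ((Q - 1) * τ) ≤ K * s ^ 2 * l :=
        mul_le_mul_of_nonneg_left h4 (by positivity)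
      nlinarith
    have h6 : (Q - 1) * ((Q + 2) * (s + 1)) ≤ (Q - 1) * (K * s ^ 2 * τ) :=
      mul_le_mul_of_nonneg_left h3 (by linarith)
    have h7 : (Q ^ 2 + 2) * (s + 1) ≤ (Q - 1) * ((Q + 2) * (s + 1)) := by
      have : (Q - 1) * ((Q + 2) * (s + 1)) - (Q ^ 2 + 2) * (s + 1) = (Q - 4) * (s + 1) := by ring
      have h8 : 0 ≤ (Q - 4) * (s + 1) := mul_nonneg (by linarith) (by linarith)
      linarith
    linarith
  · have h3 := h2 hst
    -- K s l < 2 (Q^2 + 2)
    have h4 : K * s * l < 2 * (Q ^ 2 + 2) := by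
      have h5 : (Q ^ 2 + 2) * (s + 1) ≤ (Q ^ 2 + 2) * (2 * s) :=
        mul_le_mul_of_nonneg_left (by linarith) (by positivity)
      have h6 : s * (K * s * l) < s * (2 * (Q ^ 2 + 2)) := by nlinarith
      exact lt_of_mul_lt_mul_left h6 (by linarith)
    -- 2 s < Q
    have h5 : 2 * s < Q := by
      by_contra hcon2
      push Not at hcon2
      have h6 : K * s * s ≤ K * s * l := mul_le_mul_of_nonneg_left hsl (by positivity)
      have h7 : Q * Q ≤ (2 * s) * (2 * s) := mul_le_mul hcon2 hcon2 (by linarith) (by linarith)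
      have h8 : 24 * (s * s) ≤ K * (s * s) := mul_le_mul_of_nonneg_right hK (by positivity)
      nlinarith
    -- 2 l ≥ Q τ
    have h6 : Q * τ ≤ 2 * l := by
      have : Q * 1 ≤ Q * τ := mul_le_mul_of_nonneg_left hτ (by linarith)
      linarith
    -- K s τ < 5 Q
    have h7 : K * s * τ < 5 * Q := by
      have h8 : K * s * (Q * τ) ≤ K * s * (2 * l) := mul_le_mul_of_nonneg_left h6 (by positivity)
      have h9 : Q * (K * s * τ) < Q * (5 * Q) := by nlinarith
      exact lt_of_mul_lt_mul_left h9 (by linarith)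
    -- main
    have hlow : 0 ≤ Q * τ - s := by nlinarith
    have h8 : K * s ^ 2 * (Q * τ - s) < (Q ^ 2 + 2) * (s + 1) :=
      lt_of_le_of_lt (mul_le_mul_of_nonneg_left hl (by positivity)) hcon
    have h9 : (Q + 2) * (τ + 1) * (s * (Q * τ - s)) ≤ K * τ ^ 2 * s * (s * (Q * τ - s)) :=
      mul_le_mul_of_nonneg_right h3 (by positivity)
    have h10 : τ ^ 2 * (K * s ^ 2 * (Q * τ - s)) < τ ^ 2 * ((Q ^ 2 + 2) * (s + 1)) :=
      mul_lt_mul_of_pos_left h8 (by positivity)
    have h11 : (Q + 2) * (τ + 1) * (s * (Q * τ - s)) < τ ^ 2 * ((Q ^ 2 + 2) * (s + 1)) := by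
      have : K * τ ^ 2 * s * (s * (Q * τ - s)) = τ ^ 2 * (K * s ^ 2 * (Q * τ - s)) := by ring
      linarith
    have h12 : τ ^ 2 * ((Q ^ 2 + 2) * (s + 1)) ≤ τ ^ 2 * ((Q ^ 2 + 2 * Q) * (s + 1)) := by
      apply mul_le_mul_of_nonneg_left _ (by positivity)
      apply mul_le_mul_of_nonneg_right _ (by linarith)
      linarith
    -- Q τ (s - τ) < (τ + 1) s ^ 2
    have h13 : Q * τ * (s - τ) < (τ + 1) * s ^ 2 := by
      have h14 : (Q + 2) * (Q * τ * (s - τ)) < (Q + 2) * ((τ + 1) * s ^ 2) := by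
        have e1 : (Q + 2) * (τ + 1) * (s * (Q * τ - s)) - τ ^ 2 * ((Q ^ 2 + 2 * Q) * (s + 1))
          = (Q + 2) * (Q * τ * (s - τ)) - (Q + 2) * ((τ + 1) * s ^ 2) := by ring
        linarith
      exact lt_of_mul_lt_mul_left h14 (by linarith)
    -- τ (s - τ) ≥ s - 1 ≥ s / 2
    have h14 : s - 1 ≤ τ * (s - τ) := by nlinarith
    have h15 : s ≤ 2 * (τ * (s - τ)) := by linarith
    have h16 : K * s * τ * (τ * (s - τ)) ≤ 5 * Q * (τ * (s - τ)) :=
      mul_le_mul_of_nonneg_right h7.le (by nlinarith)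
    have h17 : K * s * τ * s ≤ K * s * τ * (2 * (τ * (s - τ))) :=
      mul_le_mul_of_nonneg_left h15 (by positivity)
    have h18 : 24 * (s * τ * s) ≤ K * (s * τ * s) := mul_le_mul_of_nonneg_right hK (by positivity)
    have h19 : (τ + 1) * s ^ 2 ≤ 2 * (s * τ * s) := by
      have : 0 ≤ (τ - 1) * s ^ 2 := mul_nonneg (by linarith) (by positivity)
      nlinarith
    have h20 : 0 < s * τ * s := by positivity
    nlinarith

/-- data: a base `b ≥ 2`, a numerator prime to `b` and signs -/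
structure Dat where
  b : ℤ
  a : ℤ
  e : ℕ → Bool
  hb : 2 ≤ b
  hab : IsCoprime a b

namespace Dat

variable (D : Dat)

/-- the signs -/
def sg (j : ℕ) : ℤ := if D.e j then 1 else -1

lemma sg_sq (j : ℕ) : D.sg j * D.sg j = 1 := by unfold sg; split_ifs <;> norm_num

lemma sg_abs (j : ℕ) : |D.sg j| = 1 := by unfold sg; split_ifs <;> norm_num

/-- `s_j = b ^ (2 ^ j)` -/
def s (j : ℕ) : ℤ := D.b ^ 2 ^ j

/-- `q_j = b ^ (2 ^ (j + 1))` -/
def q (j : ℕ) : ℤ := D.b ^ 2 ^ (j + 1)

/-- the numerators -/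
def p : ℕ → ℤ
  | 0 => D.a
  | j + 1 => p j * D.q j + D.sg j

lemma b_pos : 0 < D.b := by have := D.hb; omega

lemma s_pos (j : ℕ) : 0 < D.s j := by have := D.b_pos; unfold s; positivity

lemma q_pos (j : ℕ) : 0 < D.q j := by have := D.b_pos; unfold q; positivity

lemma q_eq (j : ℕ) : D.q j = D.s j ^ 2 := by unfold q s; rw [← pow_mul, pow_succ]

lemma s_succ (j : ℕ) : D.s (j + 1) = D.s j ^ 2 := by unfold s; rw [← pow_mul, pow_succ]

lemma q_succ (j : ℕ) : D.q (j + 1) = D.q j ^ 2 := by rw [q_eq, q_eq, s_succ]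

lemma p_succ (j : ℕ) : D.p (j + 1) = D.p j * D.q j + D.sg j := rfl

lemma four_le_q (j : ℕ) : 4 ≤ D.q j := by
  induction j with
  | zero =>
    have h := D.hb
    have : D.q 0 = D.b ^ 2 := by unfold q; norm_num
    rw [this]; nlinarith
  | succ j ih => rw [q_succ]; nlinarith

lemma coprime (j : ℕ) : IsCoprime (D.p j) (D.q j) := by
  induction j with
  | zero =>
    show IsCoprime D.a (D.b ^ 2 ^ (0 + 1))
    exact D.hab.pow_right
  | succ j ih =>
    rw [q_succ, p_succ]
    refine IsCoprime.pow_right ?_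
    refine ⟨D.sg j, -(D.sg j * D.p j), ?_⟩
    have := D.sg_sq j
    linear_combination this

lemma resid_ne (j : ℕ) (x y : ℤ) (hx : x ≠ 0) (hlt : |x| < D.q j) :
    x * D.p j - y * D.q j ≠ 0 := by
  intro h
  have h1 : D.q j ∣ x * D.p j := ⟨y, by linarith⟩
  have h2 : D.q j ∣ x := (D.coprime j).symm.dvd_of_dvd_mul_right h1
  have := Int.le_of_dvd (abs_pos.mpr hx) ((dvd_abs _ _).mpr h2)
  omega

/-- the constant -/
def K : ℤ := 2 * (D.b ^ 2 + 2) + 24

lemma K_ge : 24 ≤ D.K := by unfold K; have := sq_nonneg D.b; linarith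

/-- The key inequality. -/
lemma key (j : ℕ) : ∀ x y : ℤ, x ≠ 0 → |x| < D.q j →
    (D.q j + 2) * (min |x| |x * D.p j - y * D.q j| + 1) ≤
      D.K * min |x| |x * D.p j - y * D.q j| ^ 2 * max |x| |x * D.p j - y * D.q j| := by
  induction j with
  | zero =>
    intro x y hx hlt
    have hx1 : 1 ≤ |x| := Int.one_le_abs hx
    have ht1 : 1 ≤ |x * D.p 0 - y * D.q 0| := Int.one_le_abs (D.resid_ne 0 x y hx hlt)
    set m := min |x| |x * D.p 0 - y * D.q 0| with hm
    set M := max |x| |x * D.p 0 - y * D.q 0| with hM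
    have hm1 : 1 ≤ m := le_min hx1 ht1
    have hM1 : 1 ≤ M := le_trans hx1 (le_max_left _ _)
    have hq : D.q 0 = D.b ^ 2 := by unfold q; norm_num
    have hK : 2 * (D.q 0 + 2) ≤ D.K := by unfold K; rw [hq]; linarith
    have hq0 := D.q_pos 0
    have h1 : (D.q 0 + 2) * (m + 1) ≤ (D.q 0 + 2) * (2 * m) :=
      mul_le_mul_of_nonneg_left (by linarith) (by linarith)
    have h2 : 2 * (D.q 0 + 2) * m ≤ D.K * m := mul_le_mul_of_nonneg_right hK (by linarith)
    have hK0 : 0 < D.K := by have := D.K_ge; linarith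
    have h3 : D.K * m * 1 ≤ D.K * m * (m * M) := by
      apply mul_le_mul_of_nonneg_left _ (by positivity)
      nlinarith
    nlinarith
  | succ j IH =>
    intro x y hx hlt
    have hQ4 := D.four_le_q j
    have hr0 := D.resid_ne (j + 1) x y hx hlt
    rw [q_succ, p_succ] at *
    set Q := D.q j with hQdef
    set A := D.p j with hAdef
    set ε := D.sg j with hεdef
    have hε : ε * ε = 1 := D.sg_sq j
    have hεa : |ε| = 1 := D.sg_abs j
    set t := x * A - y * Q with ht
    have hr : x * (A * Q + ε) - y * Q ^ 2 = ε * x + Q * t := by rw [ht]; ring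
    rw [hr] at hr0 ⊢
    set r := ε * x + Q * t with hrdef
    have hx1 : 1 ≤ |x| := Int.one_le_abs hx
    have hr1 : 1 ≤ |r| := Int.one_le_abs hr0
    have hK := D.K_ge
    by_contra hcon
    push Not at hcon
    have hεx : |ε * x| = |x| := by rw [abs_mul, hεa, one_mul]
    -- the smaller one is less than Q
    have hsmall : min |x| |r| < Q := by
      set m := min |x| |r| with hm
      set M := max |x| |r| with hM
      have hm1 : 1 ≤ m := le_min hx1 hr1
      have hmM : m ≤ M := min_le_max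
      by_contra hge
      push Not at hge
      have h1 : m ^ 3 ≤ m ^ 2 * M := by nlinarith [sq_nonneg m]
      have h2 : D.K * m ^ 3 ≤ D.K * (m ^ 2 * M) := mul_le_mul_of_nonneg_left h1 (by linarith)
      have h3 : 24 * m ^ 3 ≤ D.K * m ^ 3 := mul_le_mul_of_nonneg_right hK (by positivity)
      have h4 : Q ^ 2 + 2 ≤ 2 * m ^ 2 := by nlinarith
      have h5 : (Q ^ 2 + 2) * (m + 1) ≤ (2 * m ^ 2) * (2 * m) :=
        mul_le_mul h4 (by linarith) (by linarith) (by positivity)
      have h6 : 0 < m ^ 3 := by positivity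
      nlinarith
    rcases le_total |x| |r| with hxr | hxr
    · rw [min_eq_left hxr] at hcon hsmall
      rw [max_eq_right hxr] at hcon
      have ht0 : t ≠ 0 := D.resid_ne j x y hx hsmall
      have ht1 : 1 ≤ |t| := Int.one_le_abs ht0
      have hl : Q * |t| - |x| ≤ |r| := by
        have h1 := abs_sub_abs_le_abs_sub (Q * t) (-(ε * x))
        rw [abs_neg, hεx, abs_mul, abs_of_pos (by linarith : 0 < Q)] at h1
        have h2 : Q * t - -(ε * x) = r := by rw [hrdef]; ring
        rwa [h2] at h1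
      have hIH := IH x y hx hsmall
      rw [← ht] at hIH
      refine step_ineq D.K Q |x| |t| |r| hK hQ4 hx1 ht1 hxr hl hcon ?_ ?_
      · intro h
        rw [min_eq_left h, max_eq_right h] at hIH
        exact hIH
      · intro h
        rw [min_eq_right h.le, max_eq_left h.le] at hIH
        exact hIH
    · rw [min_eq_right hxr] at hcon hsmall
      rw [max_eq_left hxr] at hcon
      have hrt : r * A - (ε * y + t * A) * Q = ε * t := by
        rw [hrdef, ht]; ring
      have ht0 : ε * t ≠ 0 := by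
        rw [← hrt]
        exact D.resid_ne j r (ε * y + t * A) hr0 hsmall
      have ht1 : 1 ≤ |ε * t| := Int.one_le_abs ht0
      have hεt : |ε * t| = |t| := by rw [abs_mul, hεa, one_mul]
      rw [hεt] at ht1
      have hl : Q * |t| - |r| ≤ |x| := by
        have h1 := abs_sub_abs_le_abs_sub (Q * t) r
        rw [abs_mul, abs_of_pos (by linarith : 0 < Q)] at h1
        have h2 : Q * t - r = -(ε * x) := by rw [hrdef]; ring
        rwa [h2, abs_neg, hεx] at h1
      have hIH := IH r (ε * y + t * A) hr0 hsmall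
      rw [hrt, hεt] at hIH
      refine step_ineq D.K Q |r| |t| |x| hK hQ4 hr1 ht1 hxr hl hcon ?_ ?_
      · intro h
        rw [min_eq_left h, max_eq_right h] at hIH
        exact hIH
      · intro h
        rw [min_eq_right h.le, max_eq_left h.le] at hIH
        exact hIH

/-- `p_j / q_j` is badly approximable, uniformly in `j` -/
lemma key' (j : ℕ) (x y : ℤ) (hx : x ≠ 0) (hlt : |x| < D.q j) :
    D.q j ≤ D.K * (|x| * |x * D.p j - y * D.q j|) := by
  have h := D.key j x y hx hlt
  have hx1 : 1 ≤ |x| := Int.one_le_abs hx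
  have ht1 : 1 ≤ |x * D.p j - y * D.q j| := Int.one_le_abs (D.resid_ne j x y hx hlt)
  set t := |x * D.p j - y * D.q j| with ht
  have hmm : min |x| t * max |x| t = |x| * t := min_mul_max _ _
  have hm1 : 1 ≤ min |x| t := le_min hx1 ht1
  have hq := D.q_pos j
  set m := min |x| t with hm
  have h1 : m * D.q j ≤ m * (D.K * (|x| * t)) := by
    rw [← hmm]
    nlinarith
  exact le_of_mul_le_mul_left h1 (by linarith)

end Dat

end Pool.Agent.V5helper46.SQ
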