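import Pool.Agent.V5helper46.SQ.Alpha
import Pool.Agent.Y471.SQ3.Cluster

/-!
# Lower bounds for the correlations of `{n² α}` along a subsequence
-/

set_option autoImplicit false

namespace Pool.Agent.V5helper46.SQ

open Filter Topology
open Pool.Agent.Results.MP_ba281e_nt.NoPoissonSubseq (x corr)

/-- the step of the cluster -/
def v (D : Dat) (j : ℕ) : ℕ := (D.s j).toNat

lemma v_castZ (D : Dat) (j : ℕ) : ((v D j : ℕ) : ℤ) = D.s j := Int.toNat_of_nonneg (D.s_pos j).le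

lemma v_cast (D : Dat) (j : ℕ) : (v D j : ℝ) = (D.s j : ℝ) := by
  have h4 := v_castZ D j
  exact_mod_cast h4

lemma v_pos (D : Dat) (j : ℕ) : 0 < v D j := by
  have h1 := D.s_pos j
  unfold v
  omega

/-- `q_j (α - p_j / q_j)` -/
noncomputable def th (D : Dat) (j : ℕ) : ℝ := (D.q j : ℝ) * (D.alpha - (D.p j : ℝ) / (D.q j : ℝ))

lemma th_le (D : Dat) (j : ℕ) : |th D j| ≤ 2 / (D.q j : ℝ) := by
  have hq : (0 : ℝ) < D.q j := by exact_mod_cast D.q_pos j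
  have h := D.tail j
  have h6 : (D.q (j + 1) : ℝ) = (D.q j : ℝ) ^ 2 := by
    rw [Dat.q_succ]; push_cast; ring
  rw [h6] at h
  unfold th
  rw [abs_mul, abs_of_pos hq]
  have h2 := mul_le_mul_of_nonneg_left h hq.le
  refine h2.trans (le_of_eq ?_)
  field_simp

lemma x_form (D : Dat) (j u : ℕ) (hu : 1 ≤ u) (ht : (u : ℝ) ^ 2 * |th D j| < 1) :
    x D.alpha (v D j * u) = (u : ℝ) ^ 2 * th D j + (if 0 ≤ th D j then 0 else 1) := by
  have hq : (D.q j : ℝ) = (D.s j : ℝ) ^ 2 := by rw [Dat.q_eq]; push_cast; ring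
  have hq0 : (D.q j : ℝ) ≠ 0 := by exact_mod_cast (D.q_pos j).ne'
  have huR : (1 : ℝ) ≤ u := by exact_mod_cast hu
  have h1 : (((v D j * u : ℕ) : ℝ)) ^ 2 * D.alpha =
      (u : ℝ) ^ 2 * th D j + ((u ^ 2 * D.p j : ℤ) : ℝ) := by
    push_cast
    rw [v_cast]
    unfold th
    rw [mul_sub, mul_div_cancel₀ _ hq0, hq]
    ring
  unfold x
  rw [h1, Int.fract_add_intCast]
  split_ifs with h
  · rw [add_zero]
    rw [abs_of_nonneg h] at ht
    exact Int.fract_eq_self.mpr ⟨by positivity, ht⟩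
  · push Not at h
    rw [abs_of_neg h] at ht
    have h2 : 0 < (u : ℝ) ^ 2 * (-th D j) := mul_pos (by positivity) (by linarith)
    rw [Int.fract_eq_iff]
    refine ⟨by linarith, by linarith, -1, ?_⟩
    push_cast
    ring

lemma x_close (D : Dat) (j u u' U : ℕ) (hu : 1 ≤ u) (hu' : 1 ≤ u') (huU : u ≤ U) (huU' : u' ≤ U)
    (ε : ℝ) (hε : ε < 1) (hU : (U : ℝ) ^ 2 * |th D j| ≤ ε) :
    |x D.alpha (v D j * u) - x D.alpha (v D j * u')| ≤ ε := by
  have hbd : ∀ w : ℕ, 1 ≤ w → w ≤ U → (w : ℝ) ^ 2 ≤ (U : ℝ) ^ 2 := by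
    intro w hw hwU
    have hwR : (1 : ℝ) ≤ w := by exact_mod_cast hw
    have hwU' : (w : ℝ) ≤ U := by exact_mod_cast hwU
    exact pow_le_pow_left₀ (by linarith) hwU' 2
  have hth := abs_nonneg (th D j)
  have h1 := mul_le_mul_of_nonneg_right (hbd u hu huU) hth
  have h2 := mul_le_mul_of_nonneg_right (hbd u' hu' huU') hth
  rw [x_form D j u hu (by linarith), x_form D j u' hu' (by linarith)]
  rw [add_sub_add_right_eq_sub, ← sub_mul, abs_mul]
  have h3 : |(u : ℝ) ^ 2 - (u' : ℝ) ^ 2| ≤ (U : ℝ) ^ 2 := by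
    have := hbd u hu huU
    have := hbd u' hu' huU'
    have : 0 ≤ (u : ℝ) ^ 2 := by positivity
    have : 0 ≤ (u' : ℝ) ^ 2 := by positivity
    rw [abs_le]
    constructor <;> linarith
  exact (mul_le_mul_of_nonneg_right h3 hth).trans hU

/-- lower bound for the correlation at `N` from one approximation -/
lemma corr_lower' (D : Dat) (d j L N : ℕ) (hN : 2 ≤ N) (δ c : ℝ) (hδ1 : δ ≤ 1)
    (f : (Fin d → ℝ) → ℝ) (hf0 : ∀ y, 0 ≤ f y) (hc : HasCompactSupport f)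
    (hfc : ∀ y : Fin d → ℝ, (∀ i, |y i| ≤ δ) → c ≤ f y)
    (h1 : v D j * ((d + 1) * L) ≤ N)
    (h2 : (((d + 1) * L : ℕ) : ℝ) ^ 2 * (2 * N) ≤ δ * D.q j) :
    c * ((L : ℝ) ^ (d + 1)) / N ≤ corr d N D.alpha f := by
  classical
  have hv0 : 0 < v D j := v_pos D j
  let T : Finset (Fin (d + 1) → ℕ) := Fintype.piFinset fun i : Fin (d + 1) =>
    (Finset.Icc 1 L).image (fun w => v D j * ((i : ℕ) * L + w))
  have hcard : T.card = L ^ (d + 1) := by
    rw [Fintype.card_piFinset]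
    have : ∀ i : Fin (d + 1),
        ((Finset.Icc 1 L).image (fun w => v D j * ((i : ℕ) * L + w))).card = L := by
      intro i
      rw [Finset.card_image_of_injective, Nat.card_Icc]
      · omega
      · intro a b hab
        have := Nat.eq_of_mul_eq_mul_left hv0 hab
        omega
    rw [Finset.prod_congr rfl (fun i _ => this i)]
    simp
  have hmem : ∀ n ∈ T, ∀ i : Fin (d + 1), ∃ w : ℕ, 1 ≤ w ∧ w ≤ L ∧
      n i = v D j * ((i : ℕ) * L + w) := by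
    intro n hn i
    have := Fintype.mem_piFinset.mp hn i
    rw [Finset.mem_image] at this
    obtain ⟨w, hw, hw2⟩ := this
    rw [Finset.mem_Icc] at hw
    exact ⟨w, hw.1, hw.2, hw2.symm⟩
  have hbd : ∀ (i : Fin (d + 1)) (w : ℕ), w ≤ L → (i : ℕ) * L + w ≤ (d + 1) * L := by
    intro i w hw
    have hi : (i : ℕ) + 1 ≤ d + 1 := i.isLt
    calc (i : ℕ) * L + w ≤ (i : ℕ) * L + L := by omega
      _ = ((i : ℕ) + 1) * L := by ring
      _ ≤ (d + 1) * L := Nat.mul_le_mul_right _ hi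
  have hT : T ⊆ (Fintype.piFinset fun _ : Fin (d + 1) => Finset.Icc 1 N).filter
        (fun n => Function.Injective n) := by
    intro n hn
    rw [Finset.mem_filter, Fintype.mem_piFinset]
    constructor
    · intro i
      obtain ⟨w, hw1, hw2, hw3⟩ := hmem n hn i
      rw [Finset.mem_Icc, hw3]
      constructor
      · exact Nat.mul_pos hv0 (by omega)
      · exact (Nat.mul_le_mul_left _ (hbd i w hw2)).trans h1
    · intro i i' hii
      obtain ⟨w, hw1, hw2, hw3⟩ := hmem n hn i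
      obtain ⟨w', hw1', hw2', hw3'⟩ := hmem n hn i'
      rw [hw3, hw3'] at hii
      have h4 := Nat.eq_of_mul_eq_mul_left hv0 hii
      by_contra hne
      have hne' : (i : ℕ) ≠ (i' : ℕ) := fun h => hne (Fin.ext h)
      rcases Nat.lt_or_gt_of_ne hne' with hlt | hlt
      · have : ((i : ℕ) + 1) * L ≤ (i' : ℕ) * L := Nat.mul_le_mul_right _ hlt
        rw [Nat.add_mul, one_mul] at this
        omega
      · have : ((i' : ℕ) + 1) * L ≤ (i : ℕ) * L := Nat.mul_le_mul_right _ hlt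
        rw [Nat.add_mul, one_mul] at this
        omega
  have hNR : (2 : ℝ) ≤ N := by exact_mod_cast hN
  have hε : δ / N < 1 := by
    rw [div_lt_one (by linarith)]
    linarith
  have hq : (0 : ℝ) < D.q j := by exact_mod_cast D.q_pos j
  have hU : (((d + 1) * L : ℕ) : ℝ) ^ 2 * |th D j| ≤ δ / N := by
    have h3 := mul_le_mul_of_nonneg_left (th_le D j)
      (by positivity : (0 : ℝ) ≤ (((d + 1) * L : ℕ) : ℝ) ^ 2)
    refine h3.trans ?_
    rw [mul_div_assoc', div_le_div_iff₀ hq (by linarith)]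
    linarith
  have hcl : ∀ n ∈ T, ∀ i i', |x D.alpha (n i) - x D.alpha (n i')| ≤ δ / N := by
    intro n hn i i'
    obtain ⟨w, hw1, hw2, hw3⟩ := hmem n hn i
    obtain ⟨w', hw1', hw2', hw3'⟩ := hmem n hn i'
    rw [hw3, hw3']
    exact x_close D j _ _ ((d + 1) * L) (by omega) (by omega) (hbd i w hw2) (hbd i' w' hw2')
      (δ / N) hε hU
  have h3 := Pool.Agent.Y471.SQ3.corr_lower d N (by omega) D.alpha δ c f hf0 hc hfc T hT hcl
  rw [hcard] at h3
  push_cast at h3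
  exact h3

/-- the choice of the parameters: for a large `j` put `L = ⌊(δ s_j / 2) ^ (1 / 3) / (d + 1)⌋` and
`N = s_j (d + 1) L` -/
lemma choice (D : Dat) (d : ℕ) (δ : ℝ) (hδ0 : 0 < δ) (B : ℕ) :
    ∃ j L N : ℕ, 1 ≤ L ∧ 2 ≤ N ∧ B ≤ N ∧ N = v D j * ((d + 1) * L) ∧
      (((d + 1) * L : ℕ) : ℝ) ^ 2 * (2 * N) ≤ δ * D.q j ∧
      δ * D.s j ≤ 16 * (((d + 1) * L : ℕ) : ℝ) ^ 3 := by
  have hs : Tendsto (fun j : ℕ => (D.s (j + 1) : ℝ)) atTop atTop := by
    refine tendsto_atTop_mono (f := fun j : ℕ => (D.q j : ℝ)) ?_ D.tendsto_q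
    intro j
    have : D.q j = D.s (j + 1) := rfl
    rw [this]
  obtain ⟨j, hj⟩ := ((hs.eventually_ge_atTop
    (2 * ((d : ℝ) + 1) ^ 3 / δ)).and (hs.eventually_ge_atTop ((B : ℝ) + 2))).exists
  obtain ⟨hj1, hj2⟩ := hj
  set S : ℝ := (D.s (j + 1) : ℝ) with hS
  have hd0 : (0 : ℝ) < (d : ℝ) + 1 := by positivity
  have hS0 : 0 < S := by have := D.s_pos (j + 1); rw [hS]; exact_mod_cast this
  set z : ℝ := (δ * S / 2) ^ ((1 : ℝ) / 3) with hz
  have hz0 : 0 < z := by positivity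
  have hz3 : z ^ 3 = δ * S / 2 := by
    rw [hz, ← Real.rpow_natCast, ← Real.rpow_mul (by positivity)]
    norm_num
  set L : ℕ := ⌊z / ((d : ℝ) + 1)⌋₊ with hL
  have hzd : (d : ℝ) + 1 ≤ z := by
    rw [← pow_le_pow_iff_left₀ hd0.le hz0.le (show 3 ≠ 0 by norm_num), hz3]
    rw [div_le_iff₀ hδ0] at hj1
    linarith
  have hL1 : 1 ≤ L := by
    rw [hL, Nat.one_le_floor_iff]
    rw [le_div_iff₀ hd0, one_mul]
    exact hzd
  have hLu : (L : ℝ) ≤ z / ((d : ℝ) + 1) := Nat.floor_le (by positivity)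
  have hLl : z / ((d : ℝ) + 1) ≤ 2 * L := by
    have h1 : z / ((d : ℝ) + 1) < L + 1 := Nat.lt_floor_add_one _
    have h3 : (1 : ℝ) ≤ L := by exact_mod_cast hL1
    linarith
  have hM : (((d + 1) * L : ℕ) : ℝ) = ((d : ℝ) + 1) * L := by push_cast; ring
  have hMu : (((d + 1) * L : ℕ) : ℝ) ≤ z := by
    rw [hM, mul_comm]
    rwa [le_div_iff₀ hd0] at hLu
  have hMl : z ≤ 2 * (((d + 1) * L : ℕ) : ℝ) := by
    rw [hM]
    rw [div_le_iff₀ hd0] at hLl
    linarith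
  set M : ℝ := (((d + 1) * L : ℕ) : ℝ) with hMdef
  have hM1 : (1 : ℝ) ≤ M := by
    have : 1 ≤ (d + 1) * L := Nat.mul_pos (by omega) hL1
    rw [hMdef]
    exact_mod_cast this
  have hNR : ((v D (j + 1) * ((d + 1) * L) : ℕ) : ℝ) = S * M := by
    rw [Nat.cast_mul, v_cast]
  have hq : (D.q (j + 1) : ℝ) = S ^ 2 := by rw [Dat.q_eq]; push_cast; rfl
  have hSN : S ≤ ((v D (j + 1) * ((d + 1) * L) : ℕ) : ℝ) := by
    rw [hNR]; nlinarith
  refine ⟨j + 1, L, v D (j + 1) * ((d + 1) * L), hL1, ?_, ?_, rfl, ?_, ?_⟩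
  · have : (2 : ℝ) ≤ ((v D (j + 1) * ((d + 1) * L) : ℕ) : ℝ) := by
      have : (0 : ℝ) ≤ B := by positivity
      linarith
    exact_mod_cast this
  · have : (B : ℝ) ≤ ((v D (j + 1) * ((d + 1) * L) : ℕ) : ℝ) := by linarith
    exact_mod_cast this
  · rw [hNR, hq]
    have h1 : M ^ 3 ≤ δ * S / 2 := by
      rw [← hz3]
      exact pow_le_pow_left₀ (by linarith) hMu 3
    nlinarith
  · have h1 : δ * S / 2 ≤ (2 * M) ^ 3 := by
      rw [← hz3]
      exact pow_le_pow_left₀ hz0.le hMl 3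
    nlinarith

/-- lower bounds along a sequence tending to infinity -/
theorem lower (D : Dat) (d : ℕ) (f : (Fin d → ℝ) → ℝ) (hf0 : ∀ y, 0 ≤ f y)
    (hc : HasCompactSupport f) (δ c : ℝ) (hδ0 : 0 < δ) (hδ1 : δ ≤ 1) (hc0 : 0 ≤ c)
    (hfc : ∀ y : Fin d → ℝ, (∀ i, |y i| ≤ δ) → c ≤ f y) (B : ℕ) :
    ∃ N : ℕ, B ≤ N ∧ 2 ≤ N ∧
      c * (δ / (16 * ((d : ℝ) + 1) ^ 4)) ^ (((d : ℝ) + 1) / 4) *
        (N : ℝ) ^ (((d : ℝ) + 1) / 4 - 1) ≤ corr d N D.alpha f := by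
  obtain ⟨j, L, N, hL, hN2, hBN, hN, h1, h2⟩ := choice D d δ hδ0 B
  refine ⟨N, hBN, hN2, ?_⟩
  refine le_trans ?_ (corr_lower' D d j L N hN2 δ c hδ1 f hf0 hc hfc hN.ge h1)
  have hN0 : (0 : ℝ) < N := by positivity
  have hLR : (1 : ℝ) ≤ L := by exact_mod_cast hL
  have hd0 : (0 : ℝ) < (d : ℝ) + 1 := by positivity
  have hM : (((d + 1) * L : ℕ) : ℝ) = ((d : ℝ) + 1) * L := by push_cast; ring
  have hs0 : (0 : ℝ) < D.s j := by exact_mod_cast D.s_pos j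
  have hNR : (N : ℝ) = D.s j * (((d : ℝ) + 1) * L) := by
    rw [hN, Nat.cast_mul, v_cast, hM]
  -- `δ N ≤ 16 ((d + 1) L) ^ 4`
  have h3 : δ * N ≤ 16 * ((d : ℝ) + 1) ^ 4 * (L : ℝ) ^ 4 := by
    rw [hM] at h2
    have h4 : 0 < ((d : ℝ) + 1) * L := by positivity
    have h5 := mul_le_mul_of_nonneg_right h2 h4.le
    rw [hNR]
    nlinarith
  have h4 : (δ / (16 * ((d : ℝ) + 1) ^ 4)) * N ≤ (L : ℝ) ^ 4 := by
    rw [div_mul_eq_mul_div, div_le_iff₀ (by positivity)]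
    linarith
  have h5 : ((δ / (16 * ((d : ℝ) + 1) ^ 4)) * N) ^ (((d : ℝ) + 1) / 4) ≤ (L : ℝ) ^ (d + 1) := by
    have h6 := Real.rpow_le_rpow (by positivity) h4 (by positivity : 0 ≤ ((d : ℝ) + 1) / 4)
    refine h6.trans (le_of_eq ?_)
    rw [← Real.rpow_natCast, ← Real.rpow_mul (by positivity), ← Real.rpow_natCast]
    congr 1
    push_cast
    ring
  rw [Real.mul_rpow (by positivity) (by positivity)] at h5
  have h7 : (N : ℝ) ^ (((d : ℝ) + 1) / 4 - 1) = (N : ℝ) ^ (((d : ℝ) + 1) / 4) / N := by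
    rw [Real.rpow_sub hN0, Real.rpow_one]
  rw [h7, mul_assoc, mul_div_assoc', mul_div_assoc c]
  apply mul_le_mul_of_nonneg_left _ hc0
  exact div_le_div_of_nonneg_right h5 hN0.le

end Pool.Agent.V5helper46.SQ
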